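import Pool.Agent.Lib.MP_b8d9b4_co.Low.MainOf
import Pool.Agent.Lib.MP_b8d9b4_co.Low.P.ivt
import Pool.Agent.Lib.MP_b8d9b4_co.Low.P.tri
import Pool.Agent.Lib.MP_b8d9b4_co.Low.P.nb1
import Pool.Agent.Lib.MP_b8d9b4_co.Low.P.nib
import Pool.Agent.Lib.MP_b8d9b4_co.Low.P.c1
import Pool.Agent.Lib.MP_b8d9b4_co.Low.P.c2
import Pool.Agent.Lib.MP_b8d9b4_co.Low.P.ok
import Pool.Agent.Lib.MP_b8d9b4_co.Low.P.tab
import Pool.Agent.Lib.MP_b8d9b4_co.Low.P.num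
import Pool.Agent.Lib.MP_b8d9b4_co.Low.P.mg
import Pool.Agent.Lib.MP_b8d9b4_co.Low.P.cl
import Pool.Agent.Lib.MP_b8d9b4_co.Low.P.ln
import Pool.Agent.Lib.MP_b8d9b4_co.Low.P.dF
import Pool.Agent.Lib.MP_b8d9b4_co.Low.P.dG
import Pool.Agent.Lib.MP_b8d9b4_co.Low.P.deg
import Pool.Agent.Lib.MP_b8d9b4_co.Low.P.kF
import Pool.Agent.Lib.MP_b8d9b4_co.Low.P.kG
import Pool.Agent.Lib.MP_b8d9b4_co.Low.P.cod
import Pool.Agent.Lib.MP_b8d9b4_co.Low.P.ms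
import Pool.Agent.Lib.MP_b8d9b4_co.Low.P.sum
import Pool.Agent.Lib.MP_b8d9b4_co.Low.P.nl
import Pool.Agent.Lib.MP_b8d9b4_co.Low.P.gl
import Pool.Agent.Lib.MP_b8d9b4_co.Low.P.LLc
import Pool.Agent.Lib.MP_b8d9b4_co.Low.P.VV
import Pool.Agent.Lib.MP_b8d9b4_co.Low.P.edc
import Pool.Agent.Lib.MP_b8d9b4_co.Low.P.cov
import Pool.Agent.Lib.MP_b8d9b4_co.Low.P.def
import Pool.Agent.Lib.MP_b8d9b4_co.Low.P.mat
import Pool.Agent.Lib.MP_b8d9b4_co.Low.P.low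

/-!
# MP_b8d9b4_co, low range: assembly of the pieces
-/

set_option autoImplicit false

namespace Pool.Agent.MP_b8d9b4_co.Low

/-- maximal independent sets of all sizes between `0.502 n` and `(2 n + 10) / 3` -/
theorem low_all : S_low := by
  have hln := p_ln p_c1
  have hdF := p_dF p_ok p_mg p_cl hln
  have hdG := p_dG p_ok p_mg p_cl hln
  have hdeg := p_deg hdF hdG p_tab
  have hkG := p_kG p_ok hln
  have hcod := p_cod p_kF hkG p_num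
  have hms := p_ms p_c2 p_mg
  have hnl := p_nl p_ok p_mg p_cl
  have hgl := p_gl p_ok p_mg p_cl
  have hVV := p_VV p_ok p_mg
  have hdef := p_def p_sum hms p_num hnl p_LLc p_ok
  have hnib := p_nib p_nb1
  have hmat := p_mat hnib hdeg hcod hdef p_sum hms p_num hVV p_edc p_ok
  exact p_low hmat p_ivt p_cov hgl p_ok p_mg

end Pool.Agent.MP_b8d9b4_co.Low
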