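import Pool.Agent.Lib.MP_b8d9b4_co.Low.Cert

/-!
# MP_b8d9b4_co, low range: definitions

Maximal independent sets of `Q_n` with `j` queens, `0.502 n ≤ j ≤ 2 n / 3`, `n` large. Squares, lines, `lv`, `att`, `board` are those of `Top/Defs.lean`:
`lv 0 p` is the column `p.1`, `lv 1 p` the row `p.2`, `lv 2 p = p.1 - p.2`, `lv 3 p = p.1 + p.2`.
-/

set_option autoImplicit false

namespace Pool.Agent.MP_b8d9b4_co.Low

open Pool.Agent.MP_b8d9b4_co.Top (Sq Line lv att board)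

/-- independent dominating sets of the board (maximal independent sets) -/
def MIS (n : ℤ) (S : Finset Sq) : Prop :=
  S ⊆ board n ∧ (∀ q ∈ S, ∀ q' ∈ S, q ≠ q' → ¬ att q q') ∧ ∀ v ∈ board n, ∃ q ∈ S, att q v

/-! ### The projections of the segments -/

/-- the smaller end of the projection of type `X` -/
def lo (k : Seg) (X : Fin 4) : ℤ :=
  min (lv X ((k.x1 : ℤ), (k.y1 : ℤ))) (lv X ((k.x2 : ℤ), (k.y2 : ℤ)))

/-- the larger end of the projection of type `X` -/
def hi (k : Seg) (X : Fin 4) : ℤ :=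
  max (lv X ((k.x1 : ℤ), (k.y1 : ℤ))) (lv X ((k.x2 : ℤ), (k.y2 : ℤ)))

/-- its length -/
def len (k : Seg) (X : Fin 4) : ℤ := hi k X - lo k X

/-- the class of a line value: `1` for odd `v`; for even `v` it is `0` for columns and rows, and `0` or `2` for the diagonals (the value
modulo 4) -/
def cls (X : Fin 4) (v : ℤ) : ℕ :=
  if v % 2 = 1 then 1 else if X.val < 2 then 0 else if v % 4 = 0 then 0 else 2

/-- the coefficient of the load of a segment of type `ty` on the lines of type `X`, class `c` -/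
def cf (ty : ℕ) (X : Fin 4) (c : ℕ) : ℕ :=
  match ty with
  | 0 => if X.val < 2 then (if c = 0 then 1 else 0) else (if c = 0 then 2 else 0)
  | 1 => if X.val < 2 then (if c = 0 then 1 else 0) else (if c = 2 then 2 else 0)
  | 2 => if X.val < 2 then (if c = 1 then 1 else 0) else
      if X = 2 then (if c = 0 then 2 else 0) else (if c = 2 then 2 else 0)
  | 3 => if X.val < 2 then (if c = 1 then 1 else 0) else
      if X = 2 then (if c = 2 then 2 else 0) else (if c = 0 then 2 else 0)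
  | 4 => if X.val < 2 then (if c = 2 then 0 else 1) else (if c = 0 then 0 else 2)
  | _ => 0

/-- the load of a segment on the lines of type `X`, class `c`, in the cell `t` -/
noncomputable def ld (k : Seg) (X : Fin 4) (c : ℕ) (t : ℤ) : ℝ :=
  if lo k X ≤ t ∧ t < hi k X then ((cf k.ty X c : ℝ) * (k.al : ℝ)) / (10 ^ 8 * (len k X : ℝ))
  else 0

/-- the number of needed lines through the squares of a segment -/
def nd (k : Seg) : ℕ :=
  match k.ty with
  | 0 => 2 + (if -11 ≤ lo k 2 ∧ hi k 2 ≤ 11 then 1 else 0) +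
      (if 3 ≤ lo k 3 ∧ hi k 3 ≤ 25 then 1 else 0)
  | 1 => 2 + (if -3 ≤ lo k 2 ∧ hi k 2 ≤ 3 then 1 else 0) +
      (if 11 ≤ lo k 3 ∧ hi k 3 ≤ 17 then 1 else 0)
  | 2 => (if -11 ≤ lo k 2 ∧ hi k 2 ≤ 11 then 1 else 0) +
      (if 11 ≤ lo k 3 ∧ hi k 3 ≤ 17 then 1 else 0)
  | 3 => (if -3 ≤ lo k 2 ∧ hi k 2 ≤ 3 then 1 else 0) +
      (if 3 ≤ lo k 3 ∧ hi k 3 ≤ 25 then 1 else 0)
  | 4 => 2
  | _ => 0

/-- the conditions satisfied by all segments -/
def Ok (k : Seg) : Prop :=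
  k.x1 < k.x2 ∧ k.x2 ≤ 14 ∧ k.y1 ≤ 14 ∧ k.y2 ≤ 14 ∧ k.ty ≤ 4 ∧
  (∀ X : Fin 4, 1 ≤ len k X ∧ len k X ∣ 1980) ∧
  (k.ty = 4 → (3 ≤ lo k 2 ∨ hi k 2 ≤ -3) ∧ (17 ≤ lo k 3 ∨ hi k 3 ≤ 11))

/-! ### The strips -/

/-- the linear form of a segment (`0` on the segment itself, in the scale `q`) -/
def ph (k : Seg) (q : ℤ) (p : Sq) : ℤ :=
  ((k.x2 : ℤ) - k.x1) * (p.2 - q * k.y1) - ((k.y2 : ℤ) - k.y1) * (p.1 - q * k.x1)

/-- the residue conditions of a type -/
def kl (ty : ℕ) (p : Sq) : Prop :=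
  p.1 % 2 = (if ty = 2 ∨ ty = 3 then 1 else 0) ∧
  (p.1 - p.2) % 4 = (if ty = 0 ∨ ty = 2 then 0 else 2)

/-- the squares near a segment -/
def InSt (k : Seg) (q W R : ℤ) (p : Sq) : Prop :=
  q * k.x1 + R ≤ p.1 ∧ p.1 ≤ q * k.x2 - R ∧ 0 ≤ ph k q p ∧ ph k q p < W ∧ kl k.ty p

open Classical in
/-- the strip of a segment -/
noncomputable def St (k : Seg) (q W R : ℤ) : Finset Sq :=
  (board (14 * q)).filter (fun p => InSt k q W R p)

/-- the parameters: board size `n`, scale `q`, width `W`, margin `R`, offset range `A` -/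
def Par (n q W R A : ℤ) : Prop :=
  28 ≤ A ∧ A % 2 = 0 ∧ 0 < W ∧ 7920 ∣ W ∧ R = W + 56 * A + 56 ∧ 4 ∣ q ∧ 2 * R < q ∧
  14 * q ≤ n ∧ n < 14 * q + 56

/-! ### The hyperedges -/

/-- indices of hyperedges: number of the segment, square `u`, offsets `a`, `b` (`0` unless the type is 4) -/
abbrev Ix : Type := ℕ × Sq × ℤ × ℤ

/-- the conditions on the offsets -/
def AB (ty : ℕ) (A a b : ℤ) : Prop :=
  if ty = 4 then a % 2 = 1 ∧ 1 ≤ a ∧ a < 2 * A ∧ b % 2 = 1 ∧ 2 * A < b ∧ b < 4 * A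
  else a = 0 ∧ b = 0

open Classical in
/-- the indices -/
noncomputable def JJ (q W R A : ℤ) : Finset Ix :=
  (Finset.range 408 ×ˢ board (14 * q) ×ˢ Finset.Icc 0 (4 * A) ×ˢ Finset.Icc 0 (4 * A)).filter
    (fun i => InSt (sg i.1) q W R i.2.1 ∧ AB (sg i.1).ty A i.2.2.1 i.2.2.2)

/-- the shifts of the lines of type `X` -/
def TT (ty : ℕ) (X : Fin 4) (a b : ℤ) : Finset ℤ :=
  if ty = 4 then
    match X with
    | 0 => {0, b}
    | 1 => {0, a}
    | 2 => {0, -a, b}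
    | 3 => {0, a, b}
  else {0}

/-- the hyperedge: the lines of `u`, and for type 4 also those of `v = u + (0, a)` and `w = u + (b, 0)` -/
def ed (i : Ix) : Finset Line :=
  Finset.univ.biUnion fun X : Fin 4 =>
    (TT (sg i.1).ty X i.2.2.1 i.2.2.2).image (fun t => ((X, lv X i.2.1 + t) : Line))

/-- the weight of the segment `j` in the mixed design -/
noncomputable def am (σ : ℝ) (j : ℕ) : ℝ :=
  (if j < 168 then 1 - σ else σ) * ((sg j).al : ℝ) / 10 ^ 8

/-- the weight of a hyperedge -/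
noncomputable def wt (σ : ℝ) (W A : ℤ) (i : Ix) : ℝ :=
  am σ i.1 * 4 / (W : ℝ) / (if (sg i.1).ty = 4 then (A : ℝ) ^ 2 else 1)

/-! ### The needed lines and all lines -/

/-- the needed lines -/
noncomputable def LL (n q : ℤ) : Finset Line :=
  ((Finset.Icc 1 n).filter (fun v => v % 2 = 0)).image (fun v => ((0, v) : Line)) ∪
  ((Finset.Icc 1 n).filter (fun v => v % 2 = 0)).image (fun v => ((1, v) : Line)) ∪
  ((Finset.Icc (-(11 * q)) (11 * q)).filter (fun v => v % 4 = 0)).image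
    (fun v => ((2, v) : Line)) ∪
  ((Finset.Icc (-(3 * q)) (3 * q)).filter (fun v => v % 4 = 2)).image
    (fun v => ((2, v) : Line)) ∪
  ((Finset.Icc (3 * q) (25 * q + 112)).filter (fun v => v % 4 = 0)).image
    (fun v => ((3, v) : Line)) ∪
  ((Finset.Icc (11 * q) (17 * q + 112)).filter (fun v => v % 4 = 2)).image
    (fun v => ((3, v) : Line))

/-- all lines -/
noncomputable def VV (n : ℤ) : Finset Line :=
  (Finset.Icc 1 n).image (fun v => ((0, v) : Line)) ∪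
  (Finset.Icc 1 n).image (fun v => ((1, v) : Line)) ∪
  (Finset.Icc (-n) n).image (fun v => ((2, v) : Line)) ∪
  (Finset.Icc 0 (2 * n + 112)).image (fun v => ((3, v) : Line))

/-! ### Membership lemmas -/

open Classical in
theorem mem_St {k : Seg} {q W R : ℤ} {p : Sq} :
    p ∈ St k q W R ↔ p ∈ board (14 * q) ∧ InSt k q W R p := by
  unfold St
  rw [Finset.mem_filter]

open Classical in
theorem mem_JJ {q W R A : ℤ} (hA : 0 ≤ A) (i : Ix) : i ∈ JJ q W R A ↔
    i.1 < 408 ∧ i.2.1 ∈ St (sg i.1) q W R ∧ AB (sg i.1).ty A i.2.2.1 i.2.2.2 := by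
  obtain ⟨j, u, a, b⟩ := i
  unfold JJ
  rw [Finset.mem_filter, Finset.mem_product, Finset.mem_product, Finset.mem_product,
    Finset.mem_range, Finset.mem_Icc, Finset.mem_Icc, mem_St]
  generalize sg j = k
  constructor
  · rintro ⟨⟨h1, h2, h3, h4⟩, h5, h6⟩
    exact ⟨h1, ⟨h2, h5⟩, h6⟩
  · rintro ⟨h1, ⟨h2, h5⟩, h6⟩
    refine ⟨⟨h1, h2, ?_, ?_⟩, h5, h6⟩
    · unfold AB at h6
      split_ifs at h6
      · simp only at h6 ⊢
        omega
      · simp only at h6 ⊢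
        omega
    · unfold AB at h6
      split_ifs at h6
      · simp only at h6 ⊢
        omega
      · simp only at h6 ⊢
        omega

theorem mem_ed (i : Ix) (l : Line) :
    l ∈ ed i ↔ l.2 - lv l.1 i.2.1 ∈ TT (sg i.1).ty l.1 i.2.2.1 i.2.2.2 := by
  obtain ⟨X, v⟩ := l
  unfold ed
  generalize (sg i.1).ty = t
  rw [Finset.mem_biUnion]
  constructor
  · rintro ⟨Y, -, h⟩
    rw [Finset.mem_image] at h
    obtain ⟨s, hs, he⟩ := h
    rw [Prod.mk.injEq] at he
    obtain ⟨rfl, rfl⟩ := he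
    simp only [add_sub_cancel_left]
    exact hs
  · intro h
    refine ⟨X, Finset.mem_univ _, ?_⟩
    rw [Finset.mem_image]
    refine ⟨_, h, ?_⟩
    simp only [add_sub_cancel]

end Pool.Agent.MP_b8d9b4_co.Low
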