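import Pool.Agent.Lib.MP_b8d9b4_co.Low.Stm
import Pool.Agent.Lib.MP_b8d9b4_co.Top.MainOf

/-!
# MP_b8d9b4_co, low range: the final theorems from the pieces
-/

set_option autoImplicit false

namespace Pool.Agent.MP_b8d9b4_co.Low

open Pool.Agent.MP_b8d9b4_co.Top (queensGraph IsMinDominating IsIrredundant IsMaxIrredundant)

/-- sizes of the maximal independent sets -/
theorem indep_of (htri : S_tri) (hlow : S_low) : ∃ n0 : ℕ, ∀ n j : ℕ,
    (2 * n + 8 ≤ 3 * j ∨ (n0 ≤ n ∧ 251 * n ≤ 500 * j)) →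
    ((∃ S : Finset (Fin n × Fin n), Maximal (fun T : Finset (Fin n × Fin n) =>
      (queensGraph n).IsIndepSet (T : Set (Fin n × Fin n))) S ∧ S.card = j) ↔ j ≤ n) := by
  obtain ⟨n0, hn0⟩ := hlow
  refine ⟨n0 + 8, fun n j h => ?_⟩
  rcases le_or_gt (2 * n + 8) (3 * j) with h1 | h1
  · have h2 := Top.Ind.range n j h1
    constructor
    · rintro ⟨S, h3, h4⟩
      exact h2.1 ⟨S, h4, h3⟩
    · intro h3
      obtain ⟨S, h4, h5⟩ := h2.2 h3
      exact ⟨S, h5, h4⟩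
  · rcases h with h | ⟨h, h'⟩
    · omega
    · constructor
      · intro _
        omega
      · intro _
        obtain ⟨S, h2, h3⟩ := hn0 n j (by omega) h' (by omega)
        obtain ⟨S', h4, h5⟩ := htri n S h2
        exact ⟨S', h4, by rw [h5, h3]⟩

/-- sizes of the minimal dominating sets and of the maximal irredundant sets -/
theorem both_of (htri : S_tri) (hlow : S_low) (htr : Top.S_tr) (hgr : Top.S_gr) (hA : Top.S_stA)
    (hf : Top.S_fin) (hup : Top.S_up) :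
    (∀ (n : ℕ) (S : Finset (Fin n × Fin n)), IsIrredundant (queensGraph n) S →
      S.card ≤ 6 * n - 2) ∧
    ∃ (C : ℝ) (n0 : ℕ), ∀ n j : ℕ, (2 * n + 8 ≤ 3 * j ∨ (n0 ≤ n ∧ 251 * n ≤ 500 * j)) →
      (j + 11 ≤ 2 * n ∨ (j : ℝ) + C * (n : ℝ) ^ (3 / 4 : ℝ) ≤ 6 * n) →
      ∃ S : Finset (Fin n × Fin n), IsMinDominating (queensGraph n) S ∧
        IsMaxIrredundant (queensGraph n) S ∧ S.card = j := by
  obtain ⟨h1, C, hC⟩ := Top.main_of htr hgr hA hf hup
  obtain ⟨n0, hn0⟩ := indep_of htri hlow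
  refine ⟨h1, C, n0 + 8, fun n j h h2 => ?_⟩
  rcases le_or_gt (2 * n + 8) (3 * j) with h3 | h3
  · exact hC n j h3 h2
  · rcases h with h | ⟨h, h'⟩
    · omega
    · obtain ⟨S, h4, h5⟩ := (hn0 n j (Or.inr ⟨by omega, h'⟩)).2 (by omega)
      have h6 := (hgr _ inferInstance inferInstance (queensGraph n) S).2 h4
      exact ⟨S, h6, (hgr _ inferInstance inferInstance _ _).1 h6, h5⟩

end Pool.Agent.MP_b8d9b4_co.Low
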