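import Pool.Agent.Lib.MP_b8d9b4_co.Low.Defs

/-!
# MP_b8d9b4_co, low range: the pieces

Theorem: for `n` large every `j` with `251 n ≤ 500 j`, `3 j ≤ 2 n + 10` is the number of queens of a maximal independent set of `Q_n`. Every piece `S_x` is to be proved as
`theorem p_x : S_x` in `Low/P/x.lean` (namespace `Pool.Agent.MP_b8d9b4_co.Low`, import `Low/Stm`), with the pieces named (Uses ..) as hypotheses
`(h1 : S_y) (h2 : S_z)`, in this order. Definitions: `Low/Defs.lean`, `Low/Cert.lean` (two lists of segments), `Top/Defs.lean` (squares and lines).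
Overview: a weighted hypergraph on the lines of the board whose hyperedges are the line sets of single queens `u` and of triples `u, v = u + (0, a), w = u + (b, 0)`; all degrees
are at most 1, the needed lines `LL` have degree sum almost `LL.card`; a nibble theorem gives a matching covering almost all needed lines; a matching gives
many maximal independent sets because each triple can be used as `v, w` or as `u`.
WARNING: `sg j` is an entry of a concrete list of 408 segments. Never unfold `sg`, `segs`, `segsX`, `segsY` (except in the pieces ok, tab, num); take `hk : Ok (sg j)` from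
`S_ok` and then `generalize sg j = k at *`. Membership lemmas: `mem_St`, `mem_JJ`, `mem_ed` in `Low/Defs.lean`.
-/

set_option autoImplicit false

namespace Pool.Agent.MP_b8d9b4_co.Low

open Pool.Agent.MP_b8d9b4_co.Top (Sq Line lv att board queensGraph)

/-- [LOW ivt] intermediate values.

Proof. For `T ⊆ G` let `base T = F ∪ {g.1 : g ∈ G \ T} ∪ {g.2.1, g.2.2 : g ∈ T}`. By the hypotheses no two different squares of `base T` attack each other and the squares listed are all different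
(`att x x` always holds), so `(base T).card = F.card + G.card + T.card`. Let `M` be a `MIS` with `base T ⊆ M`, and `Q = M \ base T`.
(1) `Q.card ≤ U.card`: `q ∈ Q` is on the board, so some line `(X, lv X q)` is in `L`. No `p ∈ F` is on it (it would attack `q`), and if `X = 0` or `X = 1` and `lv X g.1 = lv X q` for some `g ∈ G` then
`g.1` (if `g ∉ T`) or `g.2.1` (`X = 0`, `g ∈ T`) or `g.2.2` (`X = 1`) is in `M` and attacks `q`, contradiction. So the line is in `U`. Two members of `Q` on the same line attack each other, so `q ↦` line is injective.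
(2) Call `g ∈ T` dirty if some `q ∈ Q` attacks `g.1`. For `q ∈ Q` and each of the four `X` there is at most one `g` with `lv X g.1 = lv X q` (different `g.1` do not attack each other), so at most `4 * U.card` members of `T` are dirty.
(3) If `g ∈ T` is not dirty then `M' = insert g.1 ((M.erase g.2.1).erase g.2.2)` is independent: `g.1` is attacked by no member of `F`, by no member of another triple, by no member of `Q`. `M'.card + 1 = M.card`
(`g.1 ∉ M` since `g.2.1 ∈ M` attacks it). `M'` contains `base (T.erase g)`; extend it to a maximal independent subset of the board: a `MIS` containing `base (T.erase g)`, with at least `M.card - 1` elements.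
(4) Induction on `T.card`: if there is a `MIS` `M ⊇ base T` with `j ≤ M.card`, then there is a `MIS` with exactly `j` elements. If `M.card = j` done. Otherwise `j < M.card ≤ F.card + G.card + T.card + U.card` and
`F.card + G.card + 5 * U.card ≤ j`, so `T.card > 4 * U.card`, there is a clean `g ∈ T`, and (3) applies. Start with `T = G`: extend `base G`, which has `F.card + 2 * G.card ≥ j` elements, to a `MIS`. -/
def S_ivt : Prop := ∀ (n : ℤ) (F : Finset Sq) (G : Finset (Sq × Sq × Sq)) (L U : Finset Line),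
  F ⊆ board n →
  (∀ g ∈ G, g.1 ∈ board n ∧ g.2.1 ∈ board n ∧ g.2.2 ∈ board n) →
  (∀ p ∈ F, ∀ p' ∈ F, p ≠ p' → ¬ att p p') →
  (∀ p ∈ F, ∀ g ∈ G, ¬ att p g.1 ∧ ¬ att p g.2.1 ∧ ¬ att p g.2.2) →
  (∀ g ∈ G, ∀ g' ∈ G, g ≠ g' → ∀ x ∈ ({g.1, g.2.1, g.2.2} : Finset Sq),
    ∀ y ∈ ({g'.1, g'.2.1, g'.2.2} : Finset Sq), ¬ att x y) →
  (∀ g ∈ G, lv 0 g.2.1 = lv 0 g.1 ∧ g.2.1 ≠ g.1 ∧ lv 1 g.2.2 = lv 1 g.1 ∧ g.2.2 ≠ g.1 ∧
    ¬ att g.2.1 g.2.2) →
  (∀ x ∈ board n, ∃ X : Fin 4, ((X, lv X x) : Line) ∈ L) →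
  (∀ l ∈ L, (∀ p ∈ F, lv l.1 p ≠ l.2) →
    (∀ g ∈ G, (l.1 = 0 ∨ l.1 = 1) → lv l.1 g.1 ≠ l.2) → l ∈ U) →
  ∀ j : ℕ, F.card + G.card + 5 * U.card ≤ j → j ≤ F.card + 2 * G.card →
    ∃ S : Finset Sq, MIS n S ∧ S.card = j

/-- [LOW tri] from integer coordinates to `Fin n × Fin n`.

Proof. As in `Top/P/tr.lean` (the same for minimal dominating sets) and `Results/MP_b8d9b4_co/MaxIndepRange.lean` (lemma `of_coords`): the map `(x, y) ↦ (x - 1, y - 1)` is a bijection from the board to `Fin n × Fin n`,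
two different squares are adjacent iff `att`. The image is independent, and it is maximal because every square outside is attacked by a member. -/
def S_tri : Prop := ∀ (n : ℕ) (S : Finset Sq), MIS n S →
  ∃ S' : Finset (Fin n × Fin n),
    Maximal (fun T : Finset (Fin n × Fin n) =>
      (queensGraph n).IsIndepSet (T : Set (Fin n × Fin n))) S' ∧ S'.card = S.card

/-- [LOW nb1] the nibble with types, all degrees equal to 1.

Proof. From `Pool.Agent.THC.nibble` in `Pool/Agent/Lib/MP_5c6f2e_co/Nibble.lean` (import it) with `r + 1` and `η' = η / (4 * (r + 2))` (and `η' ≤ 1/2`); let `ε'` be its constant (may be decreased to be `≤ 1`). `N0 = ⌈2 / ε'⌉₊ + 1`.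
For a type `t` let `m t = ∑ i with ty i = t, ω i`, `N t = ⌈m t⌉₊ + N0`; for `j : Fin r` let `dm j = ∑ i with (e i).card ≤ j, ω i`, `Q j = ⌈dm j⌉₊ + N0`.
New vertices: `V ⊕ ((Σ t : Fin 4, Fin (N t)) ⊕ (Σ j : Fin r, Fin (Q j)))`. New indices: `ι × (∀ t : Fin 4, Fin (N t)) × (∀ j : Fin r, Fin (Q j))`; `(i, f, g)` has the weight `ω i / ((∏ t, N t) * ∏ j, Q j)` and the
hyperedge `inl '' e i ∪ {(t, f t)} (t = ty i) ∪ {(j, g j) : (e i).card ≤ j}` of size `(e i).card + 1 + (r - (e i).card) = r + 1`. Degrees: `v : V`: `∑ i with v ∈ e i, ω i = 1`; `(t, a)`: `m t / N t ≤ 1`; `(j, b)`: `dm j / Q j ≤ 1`.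
Codegrees: two old vertices: `≤ ε`; an old vertex and `(t, a)`: `≤ 1 / N t`; and `(j, b)`: `≤ 1 / Q j`; `(t, a), (j, b)`: `≤ m t / (N t * Q j) ≤ 1 / Q j`; `(j, b), (j', b')`, `j ≠ j'`: `≤ dm j / (Q j * Q j') ≤ 1 / Q j'`; two different ones of the same pool, or
of two type pools: `0`. All are `≤ ε'` if `ε ≤ ε'`. Sum of the weights: since all degrees are 1, `∑ ω i * (e i).card = card V`, and `∑ t, m t = ∑ ω`, `∑ j, dm j = ∑ ω i * (r - (e i).card)`, so
`(r + 1) ∑ ω = card V + ∑ m t + ∑ dm j ≥ card V' - (4 + r) * (N0 + 1) ≥ (1 - ε') card V'` if `card V ≥ (4 + r) * (N0 + 1) / ε'`. Also `∑ ω ≤ card V`, so `card V' ≤ (r + 1) card V + (4 + r) * (N0 + 1) ≤ (r + 2) card V`.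
The theorem gives a matching `I'` with at most `η' * card V'` uncovered vertices. Different members of `I'` have different `i` (the sets `e i` are not empty), so `I = image Prod.fst I'` has `I'.card` elements and is a matching.
Uncovered vertices of `V`: `≤ η' (r + 2) card V ≤ η card V`. The number of the `i ∈ I` of type `t` is the number of the covered `(t, a)`, between `N t - η' card V'` and `N t`, and `m t ≤ N t ≤ m t + N0 + 1`. -/
def S_nb1 : Prop := ∀ (r : ℕ) (η : ℝ), 1 ≤ r → 0 < η → ∃ ε > (0 : ℝ),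
  ∀ (V ι : Type) [Fintype V] [DecidableEq V] [Fintype ι] (e : ι → Finset V) (ω : ι → ℝ)
    (ty : ι → Fin 4),
    (∀ i, 1 ≤ (e i).card ∧ (e i).card ≤ r) → (∀ i, 0 ≤ ω i) →
    (∀ v, ∑ i with v ∈ e i, ω i = 1) →
    (∀ u v, u ≠ v → ∑ i with (u ∈ e i ∧ v ∈ e i), ω i ≤ ε) →
    1 / ε ≤ (Fintype.card V : ℝ) →
    ∃ I : Finset ι, (∀ i ∈ I, ∀ j ∈ I, i ≠ j → Disjoint (e i) (e j)) ∧
      ((Finset.univ.filter (fun v : V => ∀ i ∈ I, v ∉ e i)).card : ℝ) ≤
        η * (Fintype.card V : ℝ) ∧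
      ∀ t : Fin 4, |((I.filter (fun i => ty i = t)).card : ℝ) - ∑ i with ty i = t, ω i| ≤
        η * (Fintype.card V : ℝ)

/-- [LOW nib] the nibble for a set `L` of lines that we want to cover. (Uses `S_nb1`.)

Proof. Take `ε` from `S_nb1 r (η / 3)`. New vertex type `{v // v ∈ A}`, new index type `{i // i ∈ J} ⊕ {v // v ∈ A}`; `inl i` has the hyperedge `e i` (as a subset of the subtype, `e i ⊆ A`), the weight `ω i`, the type `0` if `ty i = false` and
`1` if `ty i = true`; `inr v` has the hyperedge `{v}`, the weight `1 - ∑ i ∈ J with v ∈ e i, ω i ≥ 0`, the type `2` if `v ∈ L` and `3` otherwise. All degrees are 1, the codegrees are the old ones. Let `I` be the matching, `M` the `i ∈ J` with `inl i ∈ I`.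
A `v ∈ L` not covered by `M` is not covered by `I` (at most `(η / 3) A.card` of them) or `inr v ∈ I` (at most `∑ v ∈ L, (1 - ..) + (η / 3) A.card`, type 2). -/
def S_nib : Prop := ∀ (r : ℕ) (η : ℝ), 1 ≤ r → 0 < η → ∃ ε > (0 : ℝ),
  ∀ (V ι : Type) [DecidableEq V] [DecidableEq ι] (A L : Finset V) (J : Finset ι)
    (e : ι → Finset V) (ω : ι → ℝ) (ty : ι → Bool),
    L ⊆ A → (∀ i ∈ J, e i ⊆ A ∧ 1 ≤ (e i).card ∧ (e i).card ≤ r) → (∀ i ∈ J, 0 ≤ ω i) →
    (∀ v ∈ A, ∑ i ∈ J with v ∈ e i, ω i ≤ 1) →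
    (∀ u ∈ A, ∀ v ∈ A, u ≠ v → ∑ i ∈ J with (u ∈ e i ∧ v ∈ e i), ω i ≤ ε) →
    1 / ε ≤ (A.card : ℝ) →
    ∃ M ⊆ J, (∀ i ∈ M, ∀ j ∈ M, i ≠ j → Disjoint (e i) (e j)) ∧
      ((L.filter (fun v => ∀ i ∈ M, v ∉ e i)).card : ℝ) ≤
        ∑ v ∈ L, (1 - ∑ i ∈ J with v ∈ e i, ω i) + η * (A.card : ℝ) ∧
      ∀ b : Bool, |((M.filter (fun i => ty i = b)).card : ℝ) - ∑ i ∈ J with ty i = b, ω i| ≤
        η * (A.card : ℝ)

/-- [LOW c1] counting, upper bound.

Proof. If `S` is empty trivial. Otherwise let `a ≤ b` be its extreme elements; `x ↦ (x - a) / M` maps `S` injectively into `[0, (b - a) / M]` (`M ∣ x - a`), so `(S.card - 1) * M ≤ b - a`, and `|κ| (b - a) < W`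
(both values of the linear form are in `[0, W)`). So `(S.card - 1) * (|κ| * M) < W`; as `|κ| * M` divides `W` this gives `S.card * (|κ| * M) ≤ W`. -/
def S_c1 : Prop := ∀ (κ M W x0 c : ℤ) (S : Finset ℤ), κ ≠ 0 → 0 < M → 0 < W →
  |κ| * M ∣ W → (∀ x ∈ S, M ∣ x - x0 ∧ 0 ≤ κ * x + c ∧ κ * x + c < W) →
  (S.card : ℤ) * (|κ| * M) ≤ W

/-- [LOW c2] counting, exact.

Proof. `x = x0 + M y`: the condition is `0 ≤ κ M y + c' < W = κ M h`, i.e. `y` in a half open interval of length `h`: `⌈-c' / (κ M)⌉ ≤ y < ⌈-c' / (κ M)⌉ + h`. Take the image of `Finset.Ico a (a + h)`, where `a` is the least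
integer with `0 ≤ κ M a + c'`. -/
def S_c2 : Prop := ∀ (κ M W x0 c : ℤ), 0 < κ → 0 < M → 0 < W → κ * M ∣ W →
  ∃ S : Finset ℤ, (∀ x, x ∈ S ↔ M ∣ x - x0 ∧ 0 ≤ κ * x + c ∧ κ * x + c < W) ∧
    (S.card : ℤ) * (κ * M) = W

/-- [LOW ok] the segments are admissible.

Proof. `unfold Ok; decide +kernel` proves `∀ k ∈ segs, Ok k` (tested, about 20 seconds); then `sg j ∈ segs` for `j < 408` (`segs.length = 408` by `decide`). -/
def S_ok : Prop := ∀ j < 408, Ok (sg j)

/-- [LOW tab] the load tables.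

Proof. Tested: with `pn (X x y : ℕ) : ℕ := match X with | 0 => x | 1 => y | 2 => x + 14 - y | _ => x + y` and `ldn X c t k : ℕ := if min a b ≤ t ∧ t < max a b then cf' * k.al * (1980 / (max a b - min a b)) else 0`, where
`a = pn X k.x1 k.y1`, `b = pn X k.x2 k.y2` and `cf'` is `cf` with `X : ℕ`, the statements `∀ X < 4, ∀ c < 3, ∀ t < 28, (segsX.map (ldn X c t)).sum ≤ 1980 * 10 ^ 8` and the same with `segsY` are proved by `decide +kernel` in 30 seconds.
Then `ld k X c t = ldn X c (t or t + 14 for X = 2) k / (1980 * 10 ^ 8)` (as `len k X ∣ 1980`; `lo`, `hi` are between `0` and `28`, or `-14` and `14` for `X = 2`, so other `t` give `0`), and the sum over `j ∈ range 168` of `f (sg j)` is the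
sum of the list `segsX.map f`, the sum over `Finset.Ico 168 408` the sum of `segsY.map f`. -/
def S_tab : Prop := ∀ (X : Fin 4) (c : ℕ) (t : ℤ), c < 3 →
  ∑ j ∈ Finset.range 168, ld (sg j) X c t ≤ 1 ∧
  ∑ j ∈ Finset.Ico 168 408, ld (sg j) X c t ≤ 1

/-- [LOW num] sums over the designs.

Proof. By `decide +kernel` (as sums over lists or directly). -/
def S_num : Prop :=
  (∀ j < 168, (sg j).ty ≠ 4) ∧
  5599999000 ≤ ∑ j ∈ Finset.range 168, nd (sg j) * (sg j).al ∧
  5599999000 ≤ ∑ j ∈ Finset.Ico 168 408, nd (sg j) * (sg j).al ∧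
  ∑ j ∈ Finset.range 168, (sg j).al = 1404158576 ∧
  ∑ j ∈ (Finset.Ico 168 408).filter (fun j => (sg j).ty ≠ 4), (sg j).al = 1399999920 ∧
  ∑ j ∈ (Finset.Ico 168 408).filter (fun j => (sg j).ty = 4), (sg j).al = 588538656

/-- [LOW mg] margins.

Proof. Let `P = x2 - x1 ≥ 1`, `Q = y2 - y1 ≠ 0`, `P ≠ Q`, `P ≠ -Q` (`1 ≤ len k X = |lv X (P, Q)|`), all `≤ 14` in absolute value, `x' = p.1 - q x1 ∈ [R, P q - R]`, `y' = p.2 - q y1`, `φ = P y' - Q x' ∈ [0, W)`. Every projection `lv X p - q * lv X (x1, y1)` is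
`(κ x' + θ φ) / P` with `κ = P, Q, P - Q, P + Q` and `θ = 0, 1, -1, 1`, so `P` times it is between `κ x' - W` and `κ x' + W`. If `κ > 0` then `q * lo = q * lv X (x1, y1)`, `q * hi = q * lo + κ q` and
`κ x' - W ≥ κ R - W ≥ R - W = 56 A + 56 ≥ P (4 A + 4)`, `κ x' + W ≤ κ (P q - R) + W ≤ P κ q - P (4 A + 4)`. If `κ < 0` in the same way, from the other end. -/
def S_mg : Prop := ∀ n q W R A : ℤ, Par n q W R A → ∀ k : Seg, Ok k → ∀ p : Sq, InSt k q W R p →
  ∀ X : Fin 4, q * lo k X + (4 * A + 4) ≤ lv X p ∧ lv X p ≤ q * hi k X - (4 * A + 4)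

/-- [LOW cl] the classes of the lines through a square of type `ty`.

Proof. By cases on `ty` and `X`, `omega`. -/
def S_cl : Prop := ∀ (ty : ℕ) (p : Sq), ty ≤ 4 → kl ty p → ∀ X : Fin 4,
  cls X (lv X p) =
    if X.val < 2 then (if ty = 2 ∨ ty = 3 then 1 else 0)
    else if X = 2 then (if ty = 0 ∨ ty = 2 then 0 else 2)
    else (if ty = 0 ∨ ty = 3 then 0 else 2)

/-- [LOW ln] the squares of a strip on one line. (Uses `S_c1`.)

Proof. The squares of the strip on the column `v` are `(v, y)` with `y` in a fixed residue class modulo 4 (from `(v - y) % 4`) and `φ = P y + const ∈ [0, W)`: `S_c1` with `κ = P`, `M = 4`. On the row `v`: `(x, v)`, `x` in a fixed residue class modulo 4,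
`φ = - Q x + const`. On the diagonal `v`: `(x, x - v)`, `x` in a fixed residue class modulo 2, `φ = (P - Q) x + const`, `M = 2`. On the antidiagonal: `(x, v - x)`, `φ = - (P + Q) x + const`, `M = 2`. The absolute value of the coefficient is `len k X`,
which divides 1980, and `7920 ∣ W`. The projection to `y` or `x` is injective. -/
def S_ln : Prop := ∀ n q W R A : ℤ, Par n q W R A → ∀ k : Seg, Ok k →
  ∀ (X : Fin 4) (v : ℤ),
  (((St k q W R).filter (fun p => lv X p = v)).card : ℤ) *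
    ((if X.val < 2 then 4 else 2) * len k X) ≤ W

/-- [LOW dF] the degrees from a segment of type different from 4. (Uses `S_ok`, `S_mg`, `S_cl`, `S_ln`.)

Proof. The indices of `JJ` with `i.1 = j` are `(j, p, 0, 0)`, `p ∈ St (sg j) q W R`, each of weight `am σ j * 4 / W`, and `(X, v) ∈ ed i` iff `lv X p = v`. If there is none, the left side is `0`, the right side is `≥ 0`. Otherwise by `S_mg` `q * lo < v < q * hi`, so
`lo ≤ v / q < hi`, by `S_cl` the coefficient `cf ty X (cls X v)` is `1` for `X < 2` and `2` otherwise, and by `S_ln` the left side is at most `(W / ((4 or 2) * len)) * am σ j * 4 / W`, which is the right side. -/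
def S_dF : Prop := ∀ n q W R A : ℤ, Par n q W R A → ∀ σ : ℝ, 0 ≤ σ → σ ≤ 1 → ∀ j < 408,
  (sg j).ty ≠ 4 → ∀ (X : Fin 4) (v : ℤ),
  ∑ i ∈ JJ q W R A with (i.1 = j ∧ ((X, v) : Line) ∈ ed i), wt σ W A i ≤
    (if j < 168 then 1 - σ else σ) * ld (sg j) X (cls X v) (v / q)

/-- [LOW dG] the degrees from a segment of type 4. (Uses `S_ok`, `S_mg`, `S_cl`, `S_ln`.)

Proof. The indices are `(j, u, a, b)`, `u ∈ St`, `a` one of the `A` odd numbers in `[1, 2 A)`, `b` one of the `A` odd numbers in `(2 A, 4 A)`, each of weight `am σ j * 4 / (W A ^ 2)`; `(X, v) ∈ ed i` iff `v - lv X u ∈ TT 4 X a b`. If there is none, trivial. Otherwise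
`|v - lv X u| ≤ 4 A` and `S_mg` give `q * lo < v < q * hi`, so `lo ≤ v / q < hi`. By `S_cl` `lv 0 u`, `lv 1 u` are even and `lv 2 u`, `lv 3 u` are `2` modulo 4. Let `c = W / ((4 or 2) len)` be the bound of `S_ln`.
`X = 0`, `v` even: `lv 0 u = v`: at most `c A ^ 2` indices. `X = 0`, `v` odd: `lv 0 u = v - b`: for each `b` at most `c` squares and `A` values of `a`: at most `c A ^ 2`. The same for `X = 1` (`v` odd: `lv 1 u = v - a`). The coefficient is 1 in both cases.
`X = 2` or `3`, `v` even: only the shift `0`, `v` is `2` modulo 4: at most `c A ^ 2`, coefficient 2. `v` odd: shift `∓ a`: `lv X u = v ± a` is `2` modulo 4, which holds for exactly half of the `a` (`A` is even, the `a` are consecutive odd numbers), so at most `c A ^ 2 / 2`;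
shift `b`: in the same way at most `c A ^ 2 / 2`; together `c A ^ 2`, coefficient 2. Since `c * am σ j * 4 / W = am σ j / len` (`X < 2`) or `2 am σ j / len`, this is the claim. -/
def S_dG : Prop := ∀ n q W R A : ℤ, Par n q W R A → ∀ σ : ℝ, 0 ≤ σ → σ ≤ 1 → ∀ j < 408,
  (sg j).ty = 4 → ∀ (X : Fin 4) (v : ℤ),
  ∑ i ∈ JJ q W R A with (i.1 = j ∧ ((X, v) : Line) ∈ ed i), wt σ W A i ≤
    (if j < 168 then 1 - σ else σ) * ld (sg j) X (cls X v) (v / q)

/-- [LOW deg] all degrees are at most 1. (Uses `S_dF`, `S_dG`, `S_tab`.)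

Proof. Sum over `j < 408` (`i.1 < 408` for `i ∈ JJ`): at most `(1 - σ) * ∑ j ∈ range 168, ld .. + σ * ∑ j ∈ Ico 168 408, ld .. ≤ 1`, with `c = cls X v < 3`, `t = v / q`. -/
def S_deg : Prop := ∀ n q W R A : ℤ, Par n q W R A → ∀ σ : ℝ, 0 ≤ σ → σ ≤ 1 → ∀ l : Line,
  ∑ i ∈ JJ q W R A with l ∈ ed i, wt σ W A i ≤ 1

/-- [LOW kF] codegrees, type different from 4.

Proof. If `l1.1 = l2.1` there is no such index (`ed i` has one line of each type). Otherwise the two lines of different type determine the square `p`, so there is at most one index, of weight `am σ j * 4 / W`. -/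
def S_kF : Prop := ∀ n q W R A : ℤ, Par n q W R A → ∀ σ : ℝ, 0 ≤ σ → σ ≤ 1 → ∀ j < 408,
  (sg j).ty ≠ 4 → ∀ l1 l2 : Line, l1 ≠ l2 →
  ∑ i ∈ JJ q W R A with (i.1 = j ∧ l1 ∈ ed i ∧ l2 ∈ ed i), wt σ W A i ≤ am σ j * (36 / W)

/-- [LOW kG] codegrees, type 4. (Uses `S_ok`, `S_ln`.)

Proof. Weight of an index: `am σ j * 4 / (W A ^ 2)`. There are at most 3 shifts for each line (`TT`), hence at most 9 pairs of shifts. If `l1.1 ≠ l2.1`: for given `a`, `b` and a pair of shifts `lv X u`, `lv Y u` are determined, so `u` is: at most `9 A ^ 2` indices, total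
`≤ 36 am / W`. If `l1.1 = l2.1 = X` and the values are different: the two shifts are different, their difference is `l1.2 - l2.2`; the possible differences are `± b`, `± a`, `± (a + b)` (`X = 2`), `± (b - a)` (`X = 3`), so for a given pair of shifts one of `a`, `b` determines
the other or one of them is determined: at most `A` pairs `(a, b)`; then `lv X u` is determined and there are at most `W / (2 len) ≤ W / 2` squares `u` (`S_ln`). Total `≤ 9 * A * (W / 2) * 4 am / (W A ^ 2) = 18 am / A`. -/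
def S_kG : Prop := ∀ n q W R A : ℤ, Par n q W R A → ∀ σ : ℝ, 0 ≤ σ → σ ≤ 1 → ∀ j < 408,
  (sg j).ty = 4 → ∀ l1 l2 : Line, l1 ≠ l2 →
  ∑ i ∈ JJ q W R A with (i.1 = j ∧ l1 ∈ ed i ∧ l2 ∈ ed i), wt σ W A i ≤
    am σ j * (36 / W + 18 / A)

/-- [LOW cod] codegrees. (Uses `S_kF`, `S_kG`, `S_num`.)

Proof. Sum over `j < 408`; `∑ j ∈ range 408, am σ j = (1 - σ) * 14.04.. + σ * 19.88.. ≤ 40`. -/
def S_cod : Prop := ∀ n q W R A : ℤ, Par n q W R A → ∀ σ : ℝ, 0 ≤ σ → σ ≤ 1 →
  ∀ l1 l2 : Line, l1 ≠ l2 →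
  ∑ i ∈ JJ q W R A with (l1 ∈ ed i ∧ l2 ∈ ed i), wt σ W A i ≤ 1440 / (W : ℝ) + 720 / (A : ℝ)

/-- [LOW ms] the number of squares of a strip. (Uses `S_c2`, `S_mg`.)

Proof. For every `x ∈ [q x1 + R, q x2 - R]` of the right parity (`0` or `1`, from `kl`), the `y` with `InSt` are those with `(x - y) % 4` given and `0 ≤ P y + const < W`: exactly `W / (4 P)` (`S_c2`, `4 P ∣ 7920 ∣ W` as `P = len k 0 ∣ 1980`); by `S_mg` they are between
`1` and `14 q` (`0 ≤ lo k 1`, `hi k 1 ≤ 14`), and `x` is. The number `m` of such `x` satisfies `P q - 2 R ≤ 2 m ≤ P q - 2 R + 2`. So `8 card = m * 2 W / P`, between `W (q - 2 R / P)` and `W (q - 2 R / P + 2 / P)`. -/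
def S_ms : Prop := ∀ n q W R A : ℤ, Par n q W R A → ∀ k : Seg, Ok k →
  |8 * ((St k q W R).card : ℤ) - q * W| ≤ 2 * R * W

/-- [LOW sum] total weights.

Proof. For every `j ∈ s` the indices with `i.1 = j` are `(j, u, a, b)` with `u ∈ St` and `AB`: for type `≠ 4` only `a = b = 0` and the weight `am * 4 / W`; for type 4 there are `A` odd numbers in `[1, 2 A)` and `A` in `(2 A, 4 A)`, so `A ^ 2` pairs of weight `am * 4 / (W A ^ 2)`. -/
def S_sum : Prop := ∀ n q W R A : ℤ, Par n q W R A → ∀ (σ : ℝ) (s : Finset ℕ),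
  s ⊆ Finset.range 408 →
  ∑ i ∈ JJ q W R A with i.1 ∈ s, wt σ W A i =
    ∑ j ∈ s, am σ j * (4 / (W : ℝ)) * ((St (sg j) q W R).card : ℝ)

/-- [LOW nl] needed lines of a hyperedge. (Uses `S_ok`, `S_mg`, `S_cl`.)

Proof. The lines `(X, lv X u)` are in `ed i` (shift 0). By `S_mg` and `S_cl`: types 0, 1, 4: column and row are even and in `[1, 14 q] ⊆ [1, n]`, so in `LL`. Types 0, 2: `lv 2 u` is `0` modulo 4, if `-11 ≤ lo k 2`, `hi k 2 ≤ 11` then `|lv 2 u| ≤ 11 q`: in `LL`. Types 1, 3: `lv 2 u` is `2` modulo 4,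
window 3. Types 0, 3: `lv 3 u` is `0` modulo 4, window `[3 q, 25 q]`. Types 1, 2: `2` modulo 4, window `[11 q, 17 q]`. Lines with different `X` are different, so the number is at least `nd`. -/
def S_nl : Prop := ∀ n q W R A : ℤ, Par n q W R A → ∀ i ∈ JJ q W R A,
  nd (sg i.1) ≤ ((LL n q).filter (fun l => l ∈ ed i)).card

/-- [LOW gl] the needed lines of a triple are the column and the row of `u`. (Uses `S_ok`, `S_mg`, `S_cl`.)

Proof. `lv 0 u`, `lv 1 u` are even, so the column `lv 0 u + b` and the row `lv 1 u + a` are odd; the shifted diagonals are odd; `lv 2 u` is `2` modulo 4 and by `Ok` and `S_mg` `> 3 q` or `< -3 q`; `lv 3 u` is `2` modulo 4 and `≥ 17 q + 4 A + 4 > 17 q + 112` (`A ≥ 28`) or `< 11 q`.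
So these lines are not in `LL`. -/
def S_gl : Prop := ∀ n q W R A : ℤ, Par n q W R A → ∀ i ∈ JJ q W R A, (sg i.1).ty = 4 →
  ∀ l ∈ ed i, l ∈ LL n q → (l.1 = 0 ∨ l.1 = 1) ∧ l.2 = lv l.1 i.2.1

/-- [LOW LLc] the number of needed lines.

Proof. At most `n / 2 + 1` each for columns and rows, `22 q / 4 + 1`, `6 q / 4 + 1`, `(22 q + 112) / 4 + 1`, `(6 q + 112) / 4 + 1` for the diagonals, `n < 14 q + 56`: at most `28 q + 120` in total. (Count multiples in an interval, e.g. `Int.Ioc_filter_modEq_card`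
or by an injection `v ↦ v / 4`; `S_cnt` in `Top/Stm.lean` is a similar statement.) -/
def S_LLc : Prop := ∀ n q W R A : ℤ, Par n q W R A →
  ((LL n q).card : ℤ) ≤ 28 * q + 200

/-- [LOW VV] all lines. (Uses `S_ok`, `S_mg`.)

Proof. `n ≤ VV.card` since it contains `n` columns; at most `n + n + (2 n + 1) + (2 n + 113)` lines. `LL ⊆ VV`: `11 q ≤ n`, `25 q + 112 ≤ 2 n + 112`. The lines of a hyperedge: `u ∈ board (14 q)`, and by `S_mg` and `|shift| ≤ 4 A` the column and row values are in `[1, 14 q]`, the diagonal values in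
`[-14 q, 14 q]`, the antidiagonal values in `[0, 28 q]`. -/
def S_VV : Prop := ∀ n q W R A : ℤ, Par n q W R A →
  n ≤ ((VV n).card : ℤ) ∧ ((VV n).card : ℤ) ≤ 6 * n + 114 ∧ LL n q ⊆ VV n ∧
  ∀ i ∈ JJ q W R A, ed i ⊆ VV n

/-- [LOW edc] the size of a hyperedge.

Proof. `ed i` is a union of four images of `TT`, of at most `3` elements each (`2` for `X = 0, 1`): at most 10; it contains `(0, lv 0 u)`. -/
def S_edc : Prop := ∀ i : Ix, 1 ≤ (ed i).card ∧ (ed i).card ≤ 10

/-- [LOW cov] every square is on a needed line.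

Proof. If `p.1` or `p.2` is even, the column or the row is in `LL`. Otherwise `d = p.1 - p.2` and `s = p.1 + p.2` are even, `s = d + 2 p.2`, so `s` is `2` modulo 4 iff `d` is `0` modulo 4. Let `n = 14 q + r`, `0 ≤ r < 56`. Case `d` is `0` modulo 4: if `|d| ≤ 11 q` the diagonal is in `LL`; otherwise
`s ≤ 2 n - |d| ≤ 17 q + 2 r ≤ 17 q + 112` and `s ≥ |d| + 2 ≥ 11 q`. Case `d` is `2` modulo 4: if `|d| ≤ 3 q` the diagonal is in `LL`; otherwise `s ≤ 2 n - |d| ≤ 25 q + 112`, `s ≥ 3 q`. -/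
def S_cov : Prop := ∀ n q W R A : ℤ, Par n q W R A → ∀ p ∈ board n,
  ∃ X : Fin 4, ((X, lv X p) : Line) ∈ LL n q

/-- [LOW def] the total deficiency of the needed lines. (Uses `S_sum`, `S_ms`, `S_num`, `S_nl`, `S_LLc`, `S_ok`.)

Proof. `∑ l ∈ LL, ∑ i ∈ JJ with l ∈ ed i, wt = ∑ i ∈ JJ, wt i * ((LL.filter (· ∈ ed i)).card) ≥ ∑ i ∈ JJ, wt i * nd (sg i.1)` (`S_nl`, `wt ≥ 0`) `= ∑ j ∈ range 408, nd (sg j) * am σ j * (4 / W) * card St` (`S_sum` with `s = {j}`), and `(4 / W) * card St ≥ (q - 2 R) / 2`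
(`S_ms`), `∑ j ∈ range 408, nd (sg j) * am σ j ≥ 55.99999` (`S_num`, convex combination). So the left side is at most `28 q + 200 - 55.99999 * (q - 2 R) / 2`. -/
def S_def : Prop := ∀ n q W R A : ℤ, Par n q W R A → ∀ σ : ℝ, 0 ≤ σ → σ ≤ 1 →
  ∑ l ∈ LL n q, (1 - ∑ i ∈ JJ q W R A with l ∈ ed i, wt σ W A i) ≤
    (q : ℝ) / 10 ^ 5 + 60 * R + 200

/-- [LOW mat] the matching. (Uses `S_nib`, `S_deg`, `S_cod`, `S_def`, `S_sum`, `S_ms`, `S_num`, `S_VV`, `S_edc`, `S_ok`.)

Proof. `η = 10 ^ (-7)`, `ε` from `S_nib 10 η`. Fix `A ≥ 28` even with `720 / A ≤ ε / 2`, `W` a multiple of 7920 with `1440 / W ≤ ε / 2`, `R = W + 56 A + 56`. For `n` large let `q = 4 * (n / 56)`; `Par` holds, `14 q ≤ n < 14 q + 56`. Given `j` let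
`σ = (2 j / q - 14.04158576) / 8.78649344` (`8.78649344 = 13.9999992 + 1.5 * 5.88538656 - 14.04158576`); from `500 j ≥ 251 n ≥ 251 * 14 q`: `2 j / q ≥ 14.056`, so `σ ≥ 0.0016`; from `3 j ≤ 2 n + 10 ≤ 28 q + 122`: `2 j / q ≤ 18.7`, `σ ≤ 1`.
Apply the nibble with `A := VV n`, `L := LL n q`, `J := JJ`, `e := ed`, `ω := wt σ W A`, `ty i := decide ((sg i.1).ty = 4)`. With `N := (VV n).card ≤ 7 n ≤ 99 q` (`n` large) the matching `M` satisfies: uncovered needed lines `E ≤ q / 10 ^ 5 + 60 R + 200 + η N ≤ 3 q / 10 ^ 5`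
(`99 η = 10 ^ (-5)` nearly, `q` large); `|f - mF| ≤ η N`, `|g - mG| ≤ η N`, where by `S_sum` `mF = ∑ j, ty ≠ 4, am σ j * (4 / W) * card St`, and `|(4 / W) * card St - q / 2| ≤ R` (`S_ms`), so `mF` is
`((1 - σ) * 14.04158576 + σ * 13.9999992) q / 2` up to `40 R` and `mG` is `σ * 5.88538656 * q / 2` up to `40 R`. By the choice of `σ`: `mF + 1.5 mG = j` up to `100 R`, and `mG / 2 ≥ 0.0016 * 5.88 * q / 4 ≥ 0.0023 q`. So
`f + g + 5 E ≤ j - 0.0023 q + 100 R + 2 η N + 15 q / 10 ^ 5 ≤ j` and `f + 2 g ≥ j + 0.0023 q - 100 R - 3 η N ≥ j`. -/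
def S_mat : Prop := ∃ n0 : ℕ, ∀ n j : ℕ, n0 ≤ n → 251 * n ≤ 500 * j → 3 * j ≤ 2 * n + 10 →
  ∃ (q W R A : ℤ) (M : Finset Ix), Par n q W R A ∧ M ⊆ JJ q W R A ∧
    (∀ i ∈ M, ∀ i' ∈ M, i ≠ i' → Disjoint (ed i) (ed i')) ∧
    (M.filter (fun i => (sg i.1).ty ≠ 4)).card + (M.filter (fun i => (sg i.1).ty = 4)).card +
      5 * ((LL n q).filter (fun l => ∀ i ∈ M, l ∉ ed i)).card ≤ j ∧
    j ≤ (M.filter (fun i => (sg i.1).ty ≠ 4)).card + 2 * (M.filter (fun i => (sg i.1).ty = 4)).card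

/-- [LOW low] the maximal independent sets. (Uses `S_mat`, `S_ivt`, `S_cov`, `S_gl`, `S_ok`, `S_mg`.)

Proof. `F` = the squares `i.2.1` of the `i ∈ M` of type `≠ 4`; `G` = the triples `(u, u + (0, a), u + (b, 0))` of the `i ∈ M` of type 4, `i = (j, u, a, b)`. All lines of these squares are in `ed i` (`TT`), so squares of different `i`, `i'` do not attack each other (disjoint hyperedges), and the maps from `M` are
injective: the cardinalities are those in `S_mat`. In a triple: `a, b > 0`, `a < 2 A < b`, so `v ≠ u`, `w ≠ u`, and `v`, `w` do not attack each other (`x ≠ x + b`, `y + a ≠ y`, `-a ≠ b`, `a ≠ b`). They are on the board by `S_mg` (`a, b ≤ 4 A`, `hi ≤ 14`, `14 q ≤ n`). `L = LL n q`, `U` = the needed lines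
not in any `ed i`, `i ∈ M`: if `l ∈ L`, `l ∈ ed i` and `i` has type `≠ 4`, then `l` is a line of the square of `F`; if `i` has type 4, `S_gl` says that it is the column or the row of `u`. -/
def S_low : Prop := ∃ n0 : ℕ, ∀ n j : ℕ, n0 ≤ n → 251 * n ≤ 500 * j → 3 * j ≤ 2 * n + 10 →
  ∃ S : Finset Sq, MIS n S ∧ S.card = j

end Pool.Agent.MP_b8d9b4_co.Low
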